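import Pool.Agent.Helper43.CRF.Main

/-!
# Cantor realizations and smooth boundaries

An aperiodic equivalence relation is realized on Cantor space by a countable group if and only if
the group realizes it on some compact metrizable space having enough open sets on whose boundaries
the orbit equivalence relation is smooth.
-/

set_option autoImplicit false

open Set Topology MeasureTheory TopologicalSpace

namespace Pool.Agent.Helper43.CRF.Cut

/-- The equivalence relation `E` is realized by the action of `Γ` on the topological space `K`:
there is a Borel bijection from `X` to `K` carrying `E` to the orbit equivalence relation. -/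
def RealizedBy (Γ : Type) [Group Γ] {X : Type} [MeasurableSpace X] (E : Setoid X) (K : Type)
    [TopologicalSpace K] [MulAction Γ K] : Prop :=
  ∃ f : X → K, Measurable[_, borel K] f ∧ Function.Bijective f ∧
    ∀ x y : X, E x y ↔ ∃ γ : Γ, f y = γ • f x

/-- Up to equality near `x`, only finitely many elements of `Γ` fix `x`. -/
def FiniteIsotropy (Γ : Type) [Group Γ] {K : Type} [TopologicalSpace K] [MulAction Γ K]
    (x : K) : Prop :=
  ∃ Φ : Set Γ, Φ.Finite ∧ ∀ g : Γ, g • x = x → ∃ h ∈ Φ, ∀ᶠ y in 𝓝 x, g • y = h • y

/-- The smooth boundary property: countably many open sets separate points, the orbit equivalence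
relation is smooth on their boundaries (some Borel set contains exactly one point of each orbit
meeting the boundary), and the points of the boundaries have finite isotropy. -/
def SmoothBoundaries (Γ : Type) [Group Γ] (K : Type) [TopologicalSpace K] [MulAction Γ K] :
    Prop :=
  ∃ U : ℕ → Set K, (∀ n, IsOpen (U n)) ∧
    (∀ x y : K, x ≠ y → ∃ n, x ∈ U n ∧ y ∉ closure (U n)) ∧
    (∀ n, ∃ T : Set K, MeasurableSet[borel K] T ∧
      ∀ x ∈ frontier (U n), ∃! t, t ∈ T ∧ t ∈ MulAction.orbit Γ x) ∧
    ∀ n, ∀ x ∈ frontier (U n), FiniteIsotropy Γ x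

/-- A continuous function vanishing exactly on the boundary of an open set. -/
lemma exists_function {K : Type} [MetricSpace K] (U : Set K) (hU : IsOpen U) :
    ∃ f : C(K, ℝ), (∀ x ∈ U, 0 < f x) ∧ (∀ x, x ∉ closure U → f x < 0) ∧
      ∀ x, f x = 0 → x ∈ frontier U := by
  classical
  by_cases h1 : Uᶜ.Nonempty
  · by_cases h2 : U.Nonempty
    · let f : C(K, ℝ) := ⟨fun x => Metric.infDist x Uᶜ - Metric.infDist x (closure U),
        (Metric.continuous_infDist_pt _).sub (Metric.continuous_infDist_pt _)⟩
      have hpos : ∀ x ∈ U, 0 < f x := by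
        intro x hx
        have h3 : 0 < Metric.infDist x Uᶜ := by
          rw [← hU.isClosed_compl.notMem_iff_infDist_pos h1]
          exact fun h => h hx
        have h4 : Metric.infDist x (closure U) = 0 :=
          Metric.infDist_zero_of_mem (subset_closure hx)
        change 0 < Metric.infDist x Uᶜ - Metric.infDist x (closure U)
        rw [h4, sub_zero]
        exact h3
      have hneg : ∀ x, x ∉ closure U → f x < 0 := by
        intro x hx
        have h3 : 0 < Metric.infDist x (closure U) := by
          rw [← isClosed_closure.notMem_iff_infDist_pos h2.closure]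
          exact hx
        have h4 : Metric.infDist x Uᶜ = 0 :=
          Metric.infDist_zero_of_mem (fun h => hx (subset_closure h))
        change Metric.infDist x Uᶜ - Metric.infDist x (closure U) < 0
        rw [h4, zero_sub]
        linarith
      refine ⟨f, hpos, hneg, ?_⟩
      intro x hx
      rw [hU.frontier_eq]
      refine ⟨?_, ?_⟩
      · by_contra h
        exact absurd hx (hneg x h).ne
      · intro h
        exact absurd hx (hpos x h).ne'
    · rw [not_nonempty_iff_eq_empty] at h2
      refine ⟨⟨fun _ => -1, continuous_const⟩, ?_, ?_, ?_⟩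
      · intro x hx
        rw [h2] at hx
        exact absurd hx (notMem_empty x)
      · intro x _
        change (-1 : ℝ) < 0
        norm_num
      · intro x hx
        change (-1 : ℝ) = 0 at hx
        norm_num at hx
  · rw [not_nonempty_iff_eq_empty, compl_empty_iff] at h1
    refine ⟨⟨fun _ => 1, continuous_const⟩, ?_, ?_, ?_⟩
    · intro x _
      change (0 : ℝ) < 1
      norm_num
    · intro x hx
      rw [h1, closure_univ] at hx
      exact absurd (mem_univ x) hx
    · intro x hx
      change (1 : ℝ) = 0 at hx
      norm_num at hx

/-- An aperiodic equivalence relation on an uncountable standard Borel space is realized by a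
continuous action of the countable group `Γ` on Cantor space if and only if `Γ` realizes it on some
compact metrizable space with the smooth boundary property. -/
theorem main {X : Type} [MeasurableSpace X] [StandardBorelSpace X] [Uncountable X]
    (E : Setoid X) (hE : ∀ x : X, {y : X | E x y}.Infinite)
    (Γ : Type) [Group Γ] [Countable Γ] :
    (∃ (_ : MulAction Γ (ℕ → Bool)) (_ : ContinuousConstSMul Γ (ℕ → Bool)),
      RealizedBy Γ E (ℕ → Bool)) ↔
    ∃ (K : Type) (_ : TopologicalSpace K) (_ : CompactSpace K) (_ : MetrizableSpace K)
      (_ : MulAction Γ K) (_ : ContinuousConstSMul Γ K),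
      RealizedBy Γ E K ∧ SmoothBoundaries Γ K := by
  constructor
  · rintro ⟨i1, i2, h⟩
    refine ⟨ℕ → Bool, inferInstance, inferInstance, inferInstance, i1, i2, h, ?_⟩
    have hfr : ∀ n (b : Bool), frontier {z : ℕ → Bool | z n = b} = ∅ := by
      intro n b
      have h0 : Continuous fun z : ℕ → Bool => z n := continuous_apply n
      apply IsClopen.frontier_eq
      exact (isClopen_discrete {b}).preimage h0
    refine ⟨fun n => {z | z (n / 2) = (n % 2 == 0)}, ?_, ?_, ?_, ?_⟩
    · intro n
      have h0 : Continuous fun z : ℕ → Bool => z (n / 2) := continuous_apply (n / 2)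
      exact (isOpen_discrete {(n % 2 == 0)}).preimage h0
    · intro x y hxy
      obtain ⟨n, hn⟩ := Function.ne_iff.1 hxy
      have h0 : Continuous fun z : ℕ → Bool => z n := continuous_apply n
      have hcl : ∀ b : Bool, closure {z : ℕ → Bool | z n = b} = {z | z n = b} := fun b =>
        ((isClosed_discrete {b}).preimage h0).closure_eq
      cases hx : x n with
      | true =>
        refine ⟨2 * n, ?_, ?_⟩
        · change x (2 * n / 2) = (2 * n % 2 == 0)
          rw [Nat.mul_div_cancel_left n two_pos]
          simp [hx]
        · intro hy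
          have h1 : {z : ℕ → Bool | z (2 * n / 2) = (2 * n % 2 == 0)} = {z | z n = true} := by
            rw [Nat.mul_div_cancel_left n two_pos]
            simp
          beta_reduce at hy
          rw [h1, hcl] at hy
          exact hn (hx.trans (hy : y n = true).symm)
      | false =>
        refine ⟨2 * n + 1, ?_, ?_⟩
        · change x ((2 * n + 1) / 2) = ((2 * n + 1) % 2 == 0)
          have h2 : (2 * n + 1) / 2 = n := by omega
          have h3 : (2 * n + 1) % 2 = 1 := by omega
          rw [h2, h3, hx]
          rfl
        · intro hy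
          have h1 : {z : ℕ → Bool | z ((2 * n + 1) / 2) = ((2 * n + 1) % 2 == 0)} =
              {z | z n = false} := by
            have h2 : (2 * n + 1) / 2 = n := by omega
            have h3 : (2 * n + 1) % 2 = 1 := by omega
            rw [h2, h3]
            rfl
          beta_reduce at hy
          rw [h1, hcl] at hy
          exact hn (hx.trans (hy : y n = false).symm)
    · intro n
      refine ⟨∅, @MeasurableSet.empty _ (borel _), ?_⟩
      intro x hx
      rw [hfr] at hx
      exact absurd hx (notMem_empty x)
    · intro n x hx
      rw [hfr] at hx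
      exact absurd hx (notMem_empty x)
  · rintro ⟨K, i1, i2, i3, i4, i5, ⟨f, hf, hfb, hfE⟩, U, hUo, hUsep, hUsm, hUiso⟩
    let _ : MetricSpace K := metrizableSpaceMetric K
    let _ : MeasurableSpace K := borel K
    have _ : BorelSpace K := ⟨rfl⟩
    have _ : Uncountable K := hfb.1.uncountable
    choose c hc1 hc2 hc3 using fun n => exists_function (U n) (hUo n)
    have hinf : ∀ x : K, (MulAction.orbit Γ x).Infinite := by
      intro x hfin
      obtain ⟨x, rfl⟩ := hfb.2 x
      apply hE x
      apply (hfin.preimage (hfb.1.injOn (s := f ⁻¹' MulAction.orbit Γ (f x)))).subset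
      intro y hy
      obtain ⟨γ, hγ⟩ := (hfE x y).1 hy
      exact ⟨γ, hγ.symm⟩
    obtain ⟨a1, a2, e, he1, he2, he3⟩ := Pool.Agent.Helper43.CRF.cuts_iso (Γ := Γ) hinf c
      (by
        intro x y hxy
        obtain ⟨n, hn1, hn2⟩ := hUsep y x hxy.symm
        exact ⟨n, hc2 n x hn2, hc1 n y hn1⟩)
      (by
        intro n
        obtain ⟨T, hT, hT1⟩ := hUsm n
        exact ⟨T, hT, fun x hx => hT1 x (hc3 n x hx)⟩)
      (fun n x hx => hUiso n x (hc3 n x hx))
    refine ⟨a1, a2, fun x => e (f x), ?_, he2.comp hfb, ?_⟩
    · exact he1.comp hf
    · intro x y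
      rw [hfE x y]
      have h1 := he3 (f x) (f y)
      constructor
      · rintro ⟨γ, hγ⟩
        obtain ⟨γ', hγ'⟩ := h1.1 ⟨γ, hγ.symm⟩
        exact ⟨γ', hγ'.symm⟩
      · rintro ⟨γ, hγ⟩
        obtain ⟨γ', hγ'⟩ := h1.2 ⟨γ, hγ.symm⟩
        exact ⟨γ', hγ'.symm⟩

end Pool.Agent.Helper43.CRF.Cut
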