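import Pool.Agent.Helper43.CRF.Main

/-!
# Cantor realizations from finite-dimensional factors

The aperiodic form of the question: an aperiodic Borel equivalence relation which is realized by a
continuous action of a countable group on a compact metrizable space with enough finite-dimensional
factors is realized by a continuous action of the same group on Cantor space.
-/

set_option autoImplicit false

open Set Topology MeasureTheory TopologicalSpace

namespace Pool.Agent.Helper43.CRF.Fin

/-- The equivalence relation `E` is realized by the action of `Γ` on the topological space `K`: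
there is a Borel bijection from `X` to `K` carrying `E` to the orbit equivalence relation. -/
def RealizedBy (Γ : Type) [Group Γ] {X : Type} [MeasurableSpace X] (E : Setoid X) (K : Type)
    [TopologicalSpace K] [MulAction Γ K] : Prop :=
  ∃ f : X → K, Measurable[_, borel K] f ∧ Function.Bijective f ∧
    ∀ x y : X, E x y ↔ ∃ γ : Γ, f y = γ • f x

/-- The covering dimension of the space `X` is at most `d`: every finite open cover has a finite
open refinement such that every point lies in at most `d + 1` of its members. -/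
def CovDimLE (X : Type) [TopologicalSpace X] (d : ℕ) : Prop :=
  ∀ (m : ℕ) (U : Fin m → Set X), (∀ i, IsOpen (U i)) → (⋃ i, U i) = univ →
    ∃ (k : ℕ) (V : Fin k → Set X), (∀ j, IsOpen (V j)) ∧ (⋃ j, V j) = univ ∧
      (∀ j, ∃ i, V j ⊆ U i) ∧ ∀ x, {j | x ∈ V j}.ncard ≤ d + 1

/-- Up to equality near `x`, only finitely many elements of `Γ` fix `x`. -/
def FiniteIsotropy (Γ : Type) [Group Γ] {K : Type} [TopologicalSpace K] [MulAction Γ K]
    (x : K) : Prop :=
  ∃ Φ : Set Γ, Φ.Finite ∧ ∀ g : Γ, g • x = x → ∃ h ∈ Φ, ∀ᶠ y in 𝓝 x, g • y = h • y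

/-- `p : K → L` is a tame finite-dimensional factor map: it is continuous and equivariant, `L` is a
countable union of closed sets `A j` of finite covering dimension `≤ d j`, and every point `x`
of `K` lies over a zero-dimensional `A j`, or `x` has finite isotropy and a finite orbit under the
stabilizer of `p x`. -/
def TameFactor (Γ : Type) [Group Γ] {K L : Type} [TopologicalSpace K] [MulAction Γ K]
    [TopologicalSpace L] [MulAction Γ L] (p : K → L) : Prop :=
  Continuous p ∧ (∀ (γ : Γ) (x : K), p (γ • x) = γ • p x) ∧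
    ∃ (A : ℕ → Set L) (d : ℕ → ℕ), (∀ j, IsClosed (A j)) ∧ (⋃ j, A j) = univ ∧
      (∀ j, CovDimLE (A j) (d j)) ∧
      ∀ x : K, (∃ j, p x ∈ A j ∧ d j = 0) ∨
        (FiniteIsotropy Γ x ∧ {z : K | ∃ γ : Γ, γ • p x = p x ∧ z = γ • x}.Finite)

/-- The compact space `K` with its `Γ`-action has enough tame finite-dimensional factors: countably
many tame factor maps to compact metrizable spaces separate its points. -/
def EnoughTameFactors (Γ : Type) [Group Γ] (K : Type) [TopologicalSpace K] [MulAction Γ K] :
    Prop :=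
  ∃ (L : ℕ → Type) (_ : ∀ m, TopologicalSpace (L m)) (_ : ∀ m, CompactSpace (L m))
    (_ : ∀ m, MetrizableSpace (L m)) (_ : ∀ m, MulAction Γ (L m))
    (_ : ∀ m, ContinuousConstSMul Γ (L m)) (p : ∀ m, K → L m),
    (∀ m, TameFactor Γ (p m)) ∧ ∀ x y : K, x ≠ y → ∃ m, p m x ≠ p m y

/-- If an aperiodic equivalence relation on an uncountable standard Borel space is realized by a
continuous action of a countable group on a compact metrizable space with enough tame
finite-dimensional factors, then it is realized by a continuous action of the same group on Cantor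
space. -/
theorem main {X : Type} [MeasurableSpace X] [StandardBorelSpace X] [Uncountable X]
    (E : Setoid X) (hE : ∀ x : X, {y : X | E x y}.Infinite)
    (Γ : Type) [Group Γ] [Countable Γ] (K : Type) [TopologicalSpace K] [CompactSpace K]
    [MetrizableSpace K] [MulAction Γ K] [ContinuousConstSMul Γ K]
    (hK : RealizedBy Γ E K) (htame : EnoughTameFactors Γ K) :
    ∃ (_ : MulAction Γ (ℕ → Bool)) (_ : ContinuousConstSMul Γ (ℕ → Bool)),
      RealizedBy Γ E (ℕ → Bool) := by
  obtain ⟨f, hf, hfb, hfE⟩ := hK
  obtain ⟨L, i1, i2, i3, i4, i5, p, hp, hsep⟩ := htame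
  let _ : MetricSpace K := metrizableSpaceMetric K
  let _ : ∀ m, MetricSpace (L m) := fun m => metrizableSpaceMetric (L m)
  let _ : MeasurableSpace K := borel K
  have _ : BorelSpace K := ⟨rfl⟩
  have _ : Uncountable K := hfb.1.uncountable
  choose hpc hpg A d hA hcov hd hiso using hp
  obtain ⟨c, hc1, hc2, hc3⟩ := Pool.Agent.Helper43.CRF.exists_cuts K Γ L
    (fun m => ⟨p m, hpc m⟩) hpg hsep A d hA hd
    (fun m y => by
      have h1 : y ∈ ⋃ j, A m j := by rw [hcov m]; trivial
      exact mem_iUnion.1 h1)
    hiso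
  have hinf : ∀ x : K, (MulAction.orbit Γ x).Infinite := by
    intro x hfin
    obtain ⟨x, rfl⟩ := hfb.2 x
    apply hE x
    apply (hfin.preimage (hfb.1.injOn (s := f ⁻¹' MulAction.orbit Γ (f x)))).subset
    intro y hy
    obtain ⟨γ, hγ⟩ := (hfE x y).1 hy
    exact ⟨γ, hγ.symm⟩
  have hsm : ∀ n, ∃ T : Set K, MeasurableSet T ∧
      ∀ x, c n x = 0 → ∃! t, t ∈ T ∧ t ∈ MulAction.orbit Γ x := by
    intro n
    obtain ⟨T, _, hT, hT1⟩ := Pool.Agent.Helper43.CRF.exists_transversal Γ K
      (fun g => (continuous_const_smul g).measurable) {x | c n x = 0}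
      (isClosed_eq (c n).continuous continuous_const).measurableSet (fun x _ => hc2 n x)
    exact ⟨T, hT, hT1⟩
  obtain ⟨a1, a2, e, he1, he2, he3⟩ := Pool.Agent.Helper43.CRF.cuts_iso (Γ := Γ) hinf c hc1 hsm hc3
  refine ⟨a1, a2, fun x => e (f x), ?_, he2.comp hfb, ?_⟩
  · exact he1.comp hf
  · intro x y
    rw [hfE x y]
    have h1 := he3 (f x) (f y)
    constructor
    · rintro ⟨γ, hγ⟩
      obtain ⟨γ', hγ'⟩ := h1.1 ⟨γ, hγ.symm⟩
      exact ⟨γ', hγ'.symm⟩
    · rintro ⟨γ, hγ⟩
      obtain ⟨γ', hγ'⟩ := h1.2 ⟨γ, hγ.symm⟩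
      exact ⟨γ', hγ'.symm⟩

end Pool.Agent.Helper43.CRF.Fin
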