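import Pool.Agent.Helper43.CRF.Density
import Pool.Agent.Helper62.CR.CR4
import Pool.Agent.Helper71.CR.Sep
import Pool.Agent.Helper85.CR.C7

/-!
Functions in general position.
-/

set_option autoImplicit false

open Set Topology Filter TopologicalSpace

namespace Pool.Agent.Helper43.CRF

open Pool.Agent.Helper43.CR MulAction

theorem exists_generic (K Γ : Type) [MetricSpace K] [CompactSpace K] [Group Γ] [Countable Γ]
    [MulAction Γ K] [ContinuousConstSMul Γ K] (A : ℕ → Set K) (d : ℕ → ℕ)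
    (hA : ∀ j, IsClosed (A j)) (hd : ∀ j, CovDimLE (A j) (d j)) :
    ∃ f : ℕ → C(K, ℝ), (∀ x y, x ≠ y → ∃ n, f n x < 0 ∧ 0 < f n y) ∧
      ∀ j, ∀ x ∈ A j, ∀ s : Finset (ℕ × K),
        (∀ p ∈ s, p.2 ∈ MulAction.orbit Γ x ∧ f p.1 p.2 = 0) → s.card ≤ d j := by
  classical
  rcases isEmpty_or_nonempty K with hK | hK
  · exact ⟨fun _ => 0, fun x => (hK.false x).elim, fun j x => (hK.false x).elim⟩
  let q : ℕ → K := denseSeq K
  let τ' : Type := Σ j : ℕ, ((Fin (d j + 1) → ℕ × Γ) × (ℕ × ℕ))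
  let C' : τ' → Set K := fun t =>
    Metric.closedBall (q t.2.2.1) (1 / ((t.2.2.2 : ℝ) + 1)) ∩ A t.1
  let τ : Type := {t : τ' // ∀ i i', i ≠ i' → (t.2.1 i).1 = (t.2.1 i').1 →
    Disjoint ((Homeomorph.smul (t.2.1 i).2 : K ≃ₜ K) '' C' t)
      ((Homeomorph.smul (t.2.1 i').2 : K ≃ₜ K) '' C' t)}
  have hC' : ∀ t, IsClosed (C' t) := fun t => Metric.isClosed_closedBall.inter (hA t.1)
  obtain ⟨h, hh⟩ := Pool.Agent.Helper71.CR.exists_separating K
  obtain ⟨f, hf1, hf2⟩ := Pool.Agent.Helper85.CR.baire_step K τ (fun t => C' t.1)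
    (fun t => hC' t.1) (fun t => d t.1.1 + 1) (fun t i => (t.1.2.1 i).1)
    (fun t i => Homeomorph.smul (t.1.2.1 i).2)
    (by
      intro t f ε hε
      exact density_step K (C' t.1) (hC' t.1) (d t.1.1)
        (Pool.Agent.Helper62.CR.CovDimLE.closed_subset (hd t.1.1) (hC' t.1) inter_subset_right)
        (fun i => (t.1.2.1 i).1) (fun i => Homeomorph.smul (t.1.2.1 i).2) t.2 f ε hε)
    h
  refine ⟨f, ?_, ?_⟩
  · intro x y hxy
    obtain ⟨n, hn1, hn2⟩ := hh x y hxy
    refine ⟨n, ?_, ?_⟩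
    · have h1 := abs_le.1 (hf1 n x)
      linarith [h1.2]
    · have h1 := abs_le.1 (hf1 n y)
      linarith [h1.1]
  · intro j x hx s hs
    by_contra hcard
    push Not at hcard
    -- choose `d j + 1` distinct pairs
    obtain ⟨s', hs's, hs'card⟩ := Finset.exists_subset_card_eq (Nat.succ_le_of_lt hcard)
    let en : Fin (d j + 1) ≃ s' := (Fintype.equivFinOfCardEq (by
      rw [Fintype.card_coe, hs'card])).symm
    have hsp : ∀ i, (en i : ℕ × K).2 ∈ orbit Γ x ∧ f (en i : ℕ × K).1 (en i : ℕ × K).2 = 0 :=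
      fun i => hs _ (hs's (en i).2)
    choose g hg using fun i => (hsp i).1
    have hg' : ∀ i, g i • x = (en i : ℕ × K).2 := hg
    -- a small ball around `x`
    have hpair : ∀ i i', i ≠ i' → (en i : ℕ × K).1 = (en i' : ℕ × K).1 → g i • x ≠ g i' • x := by
      intro i i' hii hn heq
      apply hii
      apply en.injective
      apply Subtype.ext
      refine Prod.ext hn ?_
      rw [← hg' i, ← hg' i', heq]
    have hball : ∃ δ > 0, ∀ i i', i ≠ i' → (en i : ℕ × K).1 = (en i' : ℕ × K).1 →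
        ∀ y ∈ Metric.ball x δ, ∀ z ∈ Metric.ball x δ, g i • y ≠ g i' • z := by
      have hone : ∀ p : Fin (d j + 1) × Fin (d j + 1), ∃ δ > 0, p.1 ≠ p.2 →
          (en p.1 : ℕ × K).1 = (en p.2 : ℕ × K).1 →
          ∀ y ∈ Metric.ball x δ, ∀ z ∈ Metric.ball x δ, g p.1 • y ≠ g p.2 • z := by
        intro p
        by_cases hp : p.1 ≠ p.2 ∧ (en p.1 : ℕ × K).1 = (en p.2 : ℕ × K).1
        · have hne := hpair p.1 p.2 hp.1 hp.2
          obtain ⟨U, V, hU, hV, hxU, hxV, hUV⟩ := t2_separation hne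
          have e1 : (fun y : K => g p.1 • y) ⁻¹' U ∈ 𝓝 x :=
            (hU.preimage (continuous_const_smul _)).mem_nhds hxU
          have e2 : (fun y : K => g p.2 • y) ⁻¹' V ∈ 𝓝 x :=
            (hV.preimage (continuous_const_smul _)).mem_nhds hxV
          obtain ⟨δ, hδ, hδs⟩ := Metric.mem_nhds_iff.1 (Filter.inter_mem e1 e2)
          refine ⟨δ, hδ, fun _ _ y hy z hz heq => ?_⟩
          have h1 : g p.1 • y ∈ U := (hδs hy).1
          have h2 : g p.2 • z ∈ V := (hδs hz).2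
          rw [heq] at h1
          exact Set.disjoint_left.1 hUV h1 h2
        · exact ⟨1, one_pos, fun h1 h2 => absurd ⟨h1, h2⟩ hp⟩
      choose δ hδ hδ' using hone
      have hne : (Finset.univ : Finset (Fin (d j + 1) × Fin (d j + 1))).Nonempty :=
        ⟨(0, 0), Finset.mem_univ _⟩
      refine ⟨Finset.univ.inf' hne δ, ?_, ?_⟩
      · rw [gt_iff_lt, Finset.lt_inf'_iff]
        intro p _
        exact hδ p
      · intro i i' hii hn y hy z hz
        have hle : Finset.univ.inf' hne δ ≤ δ (i, i') := Finset.inf'_le _ (Finset.mem_univ _)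
        exact hδ' (i, i') hii hn y (Metric.ball_subset_ball hle hy) z
          (Metric.ball_subset_ball hle hz)
    obtain ⟨δ, hδ, hδ'⟩ := hball
    obtain ⟨r, hr⟩ := exists_nat_one_div_lt (half_pos hδ)
    have hrpos : 0 < 1 / ((r : ℝ) + 1) := by positivity
    obtain ⟨k, hk⟩ := (denseRange_denseSeq K).exists_dist_lt x hrpos
    have hxC : x ∈ Metric.closedBall (q k) (1 / ((r : ℝ) + 1)) := by
      rw [Metric.mem_closedBall]
      exact hk.le
    have hCb : Metric.closedBall (q k) (1 / ((r : ℝ) + 1)) ⊆ Metric.ball x δ := by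
      intro y hy
      rw [Metric.mem_closedBall] at hy
      rw [Metric.mem_ball]
      have h1 : dist x (q k) < 1 / ((r : ℝ) + 1) := hk
      have h2 : dist y x ≤ dist y (q k) + dist x (q k) := dist_triangle_right _ _ _
      linarith
    let t' : τ' := ⟨j, (fun i => ((en i : ℕ × K).1, g i), (k, r))⟩
    have ht' : ∀ i i', i ≠ i' → (t'.2.1 i).1 = (t'.2.1 i').1 →
        Disjoint ((Homeomorph.smul (t'.2.1 i).2 : K ≃ₜ K) '' C' t')
          ((Homeomorph.smul (t'.2.1 i').2 : K ≃ₜ K) '' C' t') := by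
      intro i i' hii hn
      rw [Set.disjoint_left]
      rintro _ ⟨y, hy, rfl⟩ ⟨z, hz, hzy⟩
      have hy' : y ∈ Metric.ball x δ := hCb hy.1
      have hz' : z ∈ Metric.ball x δ := hCb hz.1
      exact hδ' i i' hii hn y hy' z hz' hzy.symm
    obtain ⟨i, hi⟩ := hf2 ⟨t', ht'⟩ x ⟨hxC, hx⟩
    apply hi
    change f (en i : ℕ × K).1 (g i • x) = 0
    rw [hg' i]
    exact (hsp i).2

end Pool.Agent.Helper43.CRF
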