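import Pool.Agent.Helper88.CR.Smooth

/-!
Gluing Borel isomorphisms of orbit equivalence relations.
-/

set_option autoImplicit false

open Set Topology Filter TopologicalSpace MulAction

namespace Pool.Agent.Helper43.CRF

/-- The product structure on an invariant smooth part. -/
theorem sub_product (Γ Y : Type) [Group Γ] [Countable Γ] [MeasurableSpace Y]
    [StandardBorelSpace Y] [MulAction Γ Y] (hm : ∀ g : Γ, Measurable (fun x : Y => g • x))
    (hinf : ∀ x : Y, (orbit Γ x).Infinite) (V : Set Y) (hV : MeasurableSet V)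
    (hVg : ∀ (g : Γ), ∀ x ∈ V, g • x ∈ V) (T : Set Y) (hT : MeasurableSet T) (hTV : T ⊆ V)
    (hT1 : ∀ x ∈ V, ∃! t, t ∈ T ∧ t ∈ orbit Γ x) :
    ∃ e : (T × ℕ) ≃ᵐ V, ∀ p q, ((e p : Y) ∈ orbit Γ (e q : Y) ↔ p.1 = q.1) := by
  let act : MulAction Γ V :=
    { smul := fun g x => ⟨g • (x : Y), hVg g x x.2⟩
      one_smul := fun x => Subtype.ext (one_smul Γ (x : Y))
      mul_smul := fun g h x => Subtype.ext (mul_smul g h (x : Y)) }
  have hsm : ∀ (g : Γ) (x : V), ((g • x : V) : Y) = g • (x : Y) := fun _ _ => rfl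
  have horb : ∀ x y : V, y ∈ orbit Γ x ↔ (y : Y) ∈ orbit Γ (x : Y) := by
    intro x y
    constructor
    · rintro ⟨g, rfl⟩
      exact ⟨g, rfl⟩
    · rintro ⟨g, hg⟩
      exact ⟨g, Subtype.ext hg⟩
  have _ : StandardBorelSpace V := hV.standardBorel
  let T' : Set V := (Subtype.val : V → Y) ⁻¹' T
  have hT' : MeasurableSet T' := measurable_subtype_coe hT
  obtain ⟨e, he⟩ := Pool.Agent.Helper88.CR.smooth_product Γ V
    (fun g => ((hm g).comp measurable_subtype_coe).subtype_mk)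
    (by
      intro x hfin
      apply hinf (x : Y)
      apply (hfin.image Subtype.val).subset
      rintro _ ⟨g, rfl⟩
      exact ⟨g • x, ⟨g, rfl⟩, rfl⟩)
    T' hT'
    (by
      intro x
      obtain ⟨t, ⟨ht1, ht2⟩, ht3⟩ := hT1 x x.2
      refine ⟨⟨t, hTV ht1⟩, ⟨ht1, (horb _ _).2 ht2⟩, ?_⟩
      rintro t' ⟨ht', hto⟩
      exact Subtype.ext (ht3 t' ⟨ht', (horb _ _).1 hto⟩))
  let a : T ≃ᵐ T' :=
    { toFun := fun t => ⟨⟨t, hTV t.2⟩, t.2⟩
      invFun := fun t => ⟨(t : V), t.2⟩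
      left_inv := fun t => rfl
      right_inv := fun t => rfl
      measurable_toFun := (measurable_subtype_coe.subtype_mk).subtype_mk
      measurable_invFun := (measurable_subtype_coe.comp measurable_subtype_coe).subtype_mk }
  refine ⟨(a.prodCongr (MeasurableEquiv.refl ℕ)).trans e, ?_⟩
  intro p q
  have h1 := he ((a.prodCongr (MeasurableEquiv.refl ℕ)) p)
    ((a.prodCongr (MeasurableEquiv.refl ℕ)) q)
  rw [horb] at h1
  refine h1.trans ?_
  change a p.1 = a q.1 ↔ p.1 = q.1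
  exact a.injective.eq_iff

/-- Gluing of two Borel isomorphisms of orbit equivalence relations. -/
theorem glue (Γ K S : Type) [Group Γ] [Countable Γ] [MeasurableSpace K] [StandardBorelSpace K]
    [MeasurableSpace S] [StandardBorelSpace S] [MulAction Γ K] [MulAction Γ S]
    (hmK : ∀ g : Γ, Measurable (fun x : K => g • x))
    (hmS : ∀ g : Γ, Measurable (fun x : S => g • x))
    (hinfK : ∀ x : K, (MulAction.orbit Γ x).Infinite)
    (hinfS : ∀ x : S, (MulAction.orbit Γ x).Infinite)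
    (π : S → K) (hπ : Measurable π) (hπg : ∀ (g : Γ) (s : S), π (g • s) = g • π s)
    (V : Set K) (hV : MeasurableSet V) (hVg : ∀ (g : Γ), ∀ x ∈ V, g • x ∈ V)
    (hbij : ∀ x, x ∉ V → ∃! s, π s = x)
    (T₁ : Set K) (hT₁ : MeasurableSet T₁) (hTV₁ : T₁ ⊆ V)
    (hT₁1 : ∀ x ∈ V, ∃! t, t ∈ T₁ ∧ t ∈ MulAction.orbit Γ x) (hTi₁ : T₁.Infinite)
    (T₂ : Set S) (hT₂ : MeasurableSet T₂) (hTV₂ : T₂ ⊆ π ⁻¹' V)
    (hT₂1 : ∀ x ∈ π ⁻¹' V, ∃! t, t ∈ T₂ ∧ t ∈ MulAction.orbit Γ x) (hTi₂ : T₂.Infinite)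
    (hcount : T₁.Countable ↔ T₂.Countable) :
    ∃ e : K ≃ᵐ S, ∀ x y : K, y ∈ MulAction.orbit Γ x ↔ e y ∈ MulAction.orbit Γ (e x) := by
  classical
  have hV' : MeasurableSet (π ⁻¹' V) := hπ hV
  have hVg' : ∀ (g : Γ), ∀ x ∈ π ⁻¹' V, g • x ∈ π ⁻¹' V := by
    intro g x hx
    rw [mem_preimage, hπg]
    exact hVg g _ hx
  obtain ⟨e₁, he₁⟩ := sub_product Γ K hmK hinfK V hV hVg T₁ hT₁ hTV₁ hT₁1
  obtain ⟨e₂, he₂⟩ := sub_product Γ S hmS hinfS (π ⁻¹' V) hV' hVg' T₂ hT₂ hTV₂ hT₂1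
  have _ : StandardBorelSpace T₁ := hT₁.standardBorel
  have _ : StandardBorelSpace T₂ := hT₂.standardBorel
  have hβ : Nonempty (T₁ ≃ᵐ T₂) := by
    by_cases h : T₁.Countable
    · have h2 : T₂.Countable := hcount.1 h
      have i1 : Countable T₁ := h.to_subtype
      have i2 : Countable T₂ := h2.to_subtype
      have i3 : Infinite T₁ := hTi₁.to_subtype
      have i4 : Infinite T₂ := hTi₂.to_subtype
      obtain ⟨d1⟩ := nonempty_denumerable T₁
      obtain ⟨d2⟩ := nonempty_denumerable T₂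
      exact ⟨PolishSpace.Equiv.measurableEquiv ((Denumerable.eqv T₁).trans
        (Denumerable.eqv T₂).symm)⟩
    · have h2 : ¬ T₂.Countable := fun h' => h (hcount.2 h')
      exact ⟨PolishSpace.measurableEquivOfNotCountable
        (fun h' => h (Set.countable_coe_iff.1 h')) (fun h' => h2 (Set.countable_coe_iff.1 h'))⟩
  obtain ⟨β⟩ := hβ
  let η : V ≃ᵐ (π ⁻¹' V : Set S) :=
    e₁.symm.trans ((β.prodCongr (MeasurableEquiv.refl ℕ)).trans e₂)
  have hη : ∀ x y : V, (y : K) ∈ orbit Γ (x : K) ↔ ((η y : S) ∈ orbit Γ (η x : S)) := by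
    intro x y
    have h1 := he₁ (e₁.symm y) (e₁.symm x)
    rw [e₁.apply_symm_apply, e₁.apply_symm_apply] at h1
    have h2 := he₂ ((β.prodCongr (MeasurableEquiv.refl ℕ)) (e₁.symm y))
      ((β.prodCongr (MeasurableEquiv.refl ℕ)) (e₁.symm x))
    refine h1.trans (Iff.trans ?_ h2.symm)
    change _ ↔ β (e₁.symm y).1 = β (e₁.symm x).1
    exact β.injective.eq_iff.symm
  -- off `V`
  have _ : StandardBorelSpace ((π ⁻¹' V)ᶜ : Set S) := hV'.compl.standardBorel
  have _ : StandardBorelSpace (Vᶜ : Set K) := hV.compl.standardBorel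
  let ρ₀ : ((π ⁻¹' V)ᶜ : Set S) → (Vᶜ : Set K) := fun s => ⟨π s, s.2⟩
  have hρm : Measurable ρ₀ := (hπ.comp measurable_subtype_coe).subtype_mk
  have hρi : Function.Injective ρ₀ := by
    intro s s' h
    have h1 : π s = π s' := congrArg Subtype.val h
    obtain ⟨t, _, ht⟩ := hbij (π s) s.2
    exact Subtype.ext ((ht s rfl).trans (ht s' h1.symm).symm)
  have hρs : Function.Surjective ρ₀ := by
    intro x
    obtain ⟨s, hs, _⟩ := hbij x x.2
    refine ⟨⟨s, ?_⟩, Subtype.ext hs⟩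
    change π s ∉ V
    rw [hs]
    exact x.2
  have hρe : MeasurableEmbedding ρ₀ := hρm.measurableEmbedding hρi
  let ρ : ((π ⁻¹' V)ᶜ : Set S) ≃ᵐ (Vᶜ : Set K) :=
    { toEquiv := Equiv.ofBijective ρ₀ ⟨hρi, hρs⟩
      measurable_toFun := hρm
      measurable_invFun := by
        intro s hs
        have h1 : (Equiv.ofBijective ρ₀ ⟨hρi, hρs⟩).symm ⁻¹' s = ρ₀ '' s := by
          rw [← Equiv.image_eq_preimage_symm]
          rfl
        have h2 : MeasurableSet (ρ₀ '' s) := hρe.measurableSet_image.2 hs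
        rw [← h1] at h2
        exact h2 }
  have hρ : ∀ s, (ρ s : K) = π s := fun _ => rfl
  let e : K ≃ᵐ S := (MeasurableEquiv.sumCompl hV).symm.trans
    ((η.sumCongr ρ.symm).trans (MeasurableEquiv.sumCompl hV'))
  have heV : ∀ x (hx : x ∈ V), e x = η ⟨x, hx⟩ := by
    intro x hx
    change (MeasurableEquiv.sumCompl hV') ((η.sumCongr ρ.symm)
      ((MeasurableEquiv.sumCompl hV).symm x)) = _
    have h1 : (MeasurableEquiv.sumCompl hV).symm x = Sum.inl ⟨x, hx⟩ := by
      rw [MeasurableEquiv.symm_apply_eq]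
      rfl
    rw [h1]
    rfl
  have heVc : ∀ x (hx : x ∉ V), e x = ρ.symm ⟨x, hx⟩ := by
    intro x hx
    change (MeasurableEquiv.sumCompl hV') ((η.sumCongr ρ.symm)
      ((MeasurableEquiv.sumCompl hV).symm x)) = _
    have h1 : (MeasurableEquiv.sumCompl hV).symm x = Sum.inr ⟨x, hx⟩ := by
      rw [MeasurableEquiv.symm_apply_eq]
      rfl
    rw [h1]
    rfl
  have hin : ∀ x, x ∈ V → e x ∈ π ⁻¹' V := by
    intro x hx
    rw [heV x hx]
    exact (η ⟨x, hx⟩).2
  have hout : ∀ x, x ∉ V → π (e x) = x := by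
    intro x hx
    rw [heVc x hx, ← hρ, ρ.apply_symm_apply]
  have hmem : ∀ (x y : K), y ∈ orbit Γ x → (x ∈ V ↔ y ∈ V) := by
    rintro x _ ⟨g, rfl⟩
    constructor
    · exact fun h => hVg g x h
    · intro h
      have h1 := hVg g⁻¹ _ h
      change g⁻¹ • g • x ∈ V at h1
      rwa [inv_smul_smul] at h1
  have hmem' : ∀ (x y : S), y ∈ orbit Γ x → (π x ∈ V ↔ π y ∈ V) := by
    rintro x _ ⟨g, rfl⟩
    apply hmem
    exact ⟨g, (hπg g x).symm⟩
  refine ⟨e, ?_⟩
  intro x y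
  by_cases hx : x ∈ V
  · by_cases hy : y ∈ V
    · rw [heV x hx, heV y hy]
      exact hη ⟨x, hx⟩ ⟨y, hy⟩
    · constructor
      · intro h
        exact absurd ((hmem x y h).1 hx) hy
      · intro h
        have h1 := (hmem' _ _ h).1 (hin x hx)
        rw [hout y hy] at h1
        exact absurd h1 hy
  · by_cases hy : y ∈ V
    · constructor
      · intro h
        exact absurd ((hmem x y h).2 hy) hx
      · intro h
        have h1 := (hmem' _ _ h).2 (hin y hy)
        rw [hout x hx] at h1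
        exact absurd h1 hx
    · constructor
      · rintro ⟨g, hg⟩
        refine ⟨g, ?_⟩
        change g • e x = e y
        obtain ⟨s, _, hs⟩ := hbij y hy
        have h1 : π (g • e x) = y := by
          rw [hπg, hout x hx]
          exact hg
        rw [hs _ h1, hs _ (hout y hy)]
      · rintro ⟨g, hg⟩
        refine ⟨g, ?_⟩
        change g • x = y
        rw [← hout x hx, ← hout y hy, ← hπg]
        exact congrArg π hg

end Pool.Agent.Helper43.CRF
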