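import Pool.Agent.Helper43.CRF.Pieces

/-!
Assembly.
-/

set_option autoImplicit false
set_option linter.unusedSectionVars false

open Set Topology Filter TopologicalSpace MulAction MeasureTheory

namespace Pool.Agent.Helper43.CRF

open Pool.Agent.Helper43.CR

/-! ### Transversals of unions with countable invariant sets -/

section combine

variable {Γ Y : Type} [Group Γ] [MulAction Γ Y]

lemma orbit_mem_of_mem {B : Set Y} (hB : ∀ (g : Γ), ∀ x ∈ B, g • x ∈ B) {x y : Y} (hx : x ∈ B)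
    (hy : y ∈ orbit Γ x) : y ∈ B := by
  obtain ⟨g, rfl⟩ := hy
  exact hB g x hx

/-- Countable unions of invariant sets with transversals. -/
theorem union_transversal [MeasurableSpace Y] (V T : ℕ → Set Y) (hV : ∀ n, MeasurableSet (V n))
    (hVg : ∀ n (g : Γ), ∀ x ∈ V n, g • x ∈ V n) (hT : ∀ n, MeasurableSet (T n))
    (hTV : ∀ n, T n ⊆ V n) (hT1 : ∀ n, ∀ x ∈ V n, ∃! t, t ∈ T n ∧ t ∈ orbit Γ x) :
    ∃ T' ⊆ ⋃ n, V n, MeasurableSet T' ∧ ∀ x ∈ ⋃ n, V n, ∃! t, t ∈ T' ∧ t ∈ orbit Γ x := by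
  classical
  refine ⟨⋃ n, (T n \ ⋃ m : Fin n, V m), ?_, ?_, ?_⟩
  · exact iUnion_mono fun n => (sdiff_subset).trans (hTV n)
  · exact MeasurableSet.iUnion fun n => (hT n).diff (MeasurableSet.iUnion fun m => hV m)
  · intro x hx
    have hex : ∃ n, x ∈ V n := mem_iUnion.1 hx
    let n := Nat.find hex
    have hn : x ∈ V n := Nat.find_spec hex
    have hlt : ∀ m < n, x ∉ V m := fun m hm => Nat.find_min hex hm
    have hback : ∀ m y, y ∈ orbit Γ x → y ∈ V m → x ∈ V m := by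
      intro m y hy hyV
      exact orbit_mem_of_mem (hVg m) hyV ((orbitRel Γ Y).symm' hy)
    obtain ⟨t, ⟨ht1, ht2⟩, ht3⟩ := hT1 n x hn
    refine ⟨t, ⟨mem_iUnion.2 ⟨n, ht1, ?_⟩, ht2⟩, ?_⟩
    · intro hcon
      obtain ⟨m, hm⟩ := mem_iUnion.1 hcon
      exact hlt m m.2 (hback m t ht2 hm)
    · rintro t' ⟨ht', hto⟩
      obtain ⟨n', ht'n, ht'm⟩ := mem_iUnion.1 ht'
      have h1 : x ∈ V n' := hback n' t' hto (hTV n' ht'n)
      have h2 : n' = n := by
        apply le_antisymm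
        · by_contra hcon
          push Not at hcon
          exact ht'm (mem_iUnion.2 ⟨⟨n, hcon⟩, orbit_mem_of_mem (hVg n) hn hto⟩)
        · by_contra hcon
          push Not at hcon
          exact hlt n' hcon h1
      rw [h2] at ht'n
      exact ht3 t' ⟨ht'n, hto⟩

/-- Countable invariant sets have transversals. -/
theorem countable_transversal [MeasurableSpace Y] [MeasurableSingletonClass Y] (W : Set Y)
    (hW : W.Countable) (hWg : ∀ (g : Γ), ∀ x ∈ W, g • x ∈ W) :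
    ∃ T ⊆ W, MeasurableSet T ∧ ∀ x ∈ W, ∃! t, t ∈ T ∧ t ∈ orbit Γ x := by
  classical
  let r : Y → Y := fun x => (Quotient.mk (orbitRel Γ Y) x).out
  have hr1 : ∀ x, r x ∈ orbit Γ x := by
    intro x
    have h1 : (orbitRel Γ Y).r (r x) x := Quotient.exact (Quotient.out_eq (Quotient.mk _ x))
    exact h1
  have hr2 : ∀ x y, y ∈ orbit Γ x → r y = r x := by
    intro x y h
    have h1 : Quotient.mk (orbitRel Γ Y) y = Quotient.mk (orbitRel Γ Y) x := Quotient.sound h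
    change (Quotient.mk (orbitRel Γ Y) y).out = (Quotient.mk (orbitRel Γ Y) x).out
    rw [h1]
  refine ⟨{x | x ∈ W ∧ r x = x}, fun x hx => hx.1,
    (hW.mono fun x hx => hx.1).measurableSet, ?_⟩
  intro x hx
  refine ⟨r x, ⟨⟨orbit_mem_of_mem hWg hx (hr1 x), hr2 x (r x) (hr1 x)⟩, hr1 x⟩, ?_⟩
  rintro t ⟨ht, hto⟩
  rw [← ht.2, hr2 x t hto]

/-- A set covered by translates of a countable transversal is countable. -/
lemma countable_of_transversal [Countable Γ] {V T : Set Y} (hT : T.Countable)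
    (h : ∀ x ∈ V, ∃ t, t ∈ T ∧ t ∈ orbit Γ x) : V.Countable := by
  have h1 : V ⊆ ⋃ t ∈ T, orbit Γ t := by
    intro x hx
    obtain ⟨t, ht, hto⟩ := h x hx
    rw [mem_iUnion₂]
    exact ⟨t, ht, (orbitRel Γ Y).symm' hto⟩
  refine (hT.biUnion ?_).mono h1
  intro t _
  exact countable_range _

end combine


/-! ### The zero-dimensional extension -/

section ext

variable {K Γ : Type} [MetricSpace K] [CompactSpace K] [Group Γ] [Countable Γ]
  [MulAction Γ K] [ContinuousConstSMul Γ K] (f : ℕ → C(K, ℝ))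

/-- The extension as a type. -/
abbrev Sp (Γ : Type) [Group Γ] [MulAction Γ K] (f : ℕ → C(K, ℝ)) : Type := SSet Γ f

instance actSp : MulAction Γ (Sp Γ f) where
  smul g s := ⟨(g • s.1.1, fun p : ℕ × Γ => s.1.2 (p.1, p.2 * g)), sset_smul f g _ _ s.2⟩
  one_smul s := by
    apply Subtype.ext
    change ((1 : Γ) • s.1.1, fun p : ℕ × Γ => s.1.2 (p.1, p.2 * 1)) = s.1
    simp
  mul_smul g h s := by
    apply Subtype.ext
    change ((g * h) • s.1.1, fun p : ℕ × Γ => s.1.2 (p.1, p.2 * (g * h))) =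
      (g • h • s.1.1, fun p : ℕ × Γ => s.1.2 (p.1, p.2 * g * h))
    simp [mul_smul, mul_assoc]

lemma smul_fst (g : Γ) (s : Sp Γ f) : (g • s).1.1 = g • s.1.1 := rfl

lemma smul_snd (g : Γ) (s : Sp Γ f) (p : ℕ × Γ) : (g • s).1.2 p = s.1.2 (p.1, p.2 * g) := rfl

instance contSp : ContinuousConstSMul Γ (Sp Γ f) where
  continuous_const_smul g := by
    refine Continuous.subtype_mk (Continuous.prodMk ?_ ?_) _
    · exact (continuous_const_smul g).comp (continuous_fst.comp continuous_subtype_val)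
    · refine continuous_pi fun p => ?_
      exact (continuous_apply _).comp (continuous_snd.comp continuous_subtype_val)

instance compSp : CompactSpace (Sp Γ f) :=
  isCompact_iff_compactSpace.1 (sset_isClosed f).isCompact

/-- The perfect kernel. -/
def PK (Γ : Type) [Group Γ] [MulAction Γ K] (f : ℕ → C(K, ℝ)) : Set (Sp Γ f) :=
  {x | ∀ U : Set (Sp Γ f), IsOpen U → x ∈ U → ¬ U.Countable}

lemma smul_mem_PK (g : Γ) (x : Sp Γ f) (hx : x ∈ PK Γ f) : g • x ∈ PK Γ f := by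
  intro U hU hxU hc
  have h1 : IsOpen ((fun y : Sp Γ f => g • y) ⁻¹' U) := hU.preimage (continuous_const_smul g)
  apply hx _ h1 hxU
  have h2 : ((fun y : Sp Γ f => g • y) ⁻¹' U) = (fun y : Sp Γ f => g⁻¹ • y) '' U := by
    ext y
    constructor
    · intro hy
      exact ⟨g • y, hy, inv_smul_smul g y⟩
    · rintro ⟨z, hz, rfl⟩
      change g • g⁻¹ • z ∈ U
      rwa [smul_inv_smul]
  rw [h2]
  exact hc.image _

/-- The perfect kernel as a type. -/
abbrev Sk (Γ : Type) [Group Γ] [MulAction Γ K] [ContinuousConstSMul Γ K]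
    (f : ℕ → C(K, ℝ)) : Type := PK Γ f

instance actSk : MulAction Γ (Sk Γ f) where
  smul g s := ⟨g • s.1, smul_mem_PK f g s.1 s.2⟩
  one_smul s := Subtype.ext (one_smul Γ s.1)
  mul_smul g h s := Subtype.ext (mul_smul g h s.1)

lemma smul_val (g : Γ) (s : Sk Γ f) : (g • s).1 = g • s.1 := rfl

instance contSk : ContinuousConstSMul Γ (Sk Γ f) where
  continuous_const_smul g := by
    refine Continuous.subtype_mk ?_ _
    exact (continuous_const_smul g).comp continuous_subtype_val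

instance scSp : SecondCountableTopology (Sp Γ f) := inferInstance

instance compSk : CompactSpace (Sk Γ f) :=
  isCompact_iff_compactSpace.1 (perfect_kernel (Sp Γ f)).1.isCompact

instance polSp : PolishSpace (Sp Γ f) := (sset_isClosed f).polishSpace

instance polSk : PolishSpace (Sk Γ f) := (perfect_kernel (Sp Γ f)).1.polishSpace

/-- The projection. -/
def proj (s : Sk Γ f) : K := s.1.1.1

lemma proj_smul (g : Γ) (s : Sk Γ f) : proj f (g • s) = g • proj f s := rfl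

lemma continuous_proj : Continuous (proj (Γ := Γ) f) :=
  continuous_fst.comp (continuous_subtype_val.comp continuous_subtype_val)

theorem sk_homeo [Uncountable K] (hsep : ∀ x y, x ≠ y → ∃ n, f n x < 0 ∧ 0 < f n y) :
    Nonempty (Sk Γ f ≃ₜ (ℕ → Bool)) := by
  obtain ⟨h1, h2, h3⟩ := perfect_kernel (Sp Γ f)
  have hne : Nonempty (Sk Γ f) := by
    by_contra hcon
    have h4 : (univ : Set (Sp Γ f)).Countable := by
      apply h2.mono
      intro x _ hx
      exact hcon ⟨⟨x, hx⟩⟩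
    have h5 : (univ : Set K).Countable := by
      have h6 : (univ : Set K) ⊆ (fun s : Sp Γ f => s.1.1) '' univ := by
        intro x _
        obtain ⟨ω, hω⟩ := sset_nonempty (Γ := Γ) f x
        exact ⟨⟨(x, ω), hω⟩, trivial, rfl⟩
      exact (h4.image _).mono h6
    exact (not_countable_univ_iff.2 inferInstance) h5
  obtain ⟨en, hen⟩ := exists_surjective_nat (ℕ × Γ)
  refine brouwer (Sk Γ f) (fun n => {s | s.1.1.2 (en n) = true}) ?_ ?_ ?_
  · intro n
    have hc : Continuous (fun s : Sk Γ f => s.1.1.2 (en n)) :=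
      (continuous_apply _).comp (continuous_snd.comp
        (continuous_subtype_val.comp continuous_subtype_val))
    exact (isClopen_discrete {true}).preimage hc
  · intro x y hxy
    have h4 : x.1.1.2 ≠ y.1.1.2 := by
      intro hω
      apply hxy
      apply Subtype.ext
      apply Subtype.ext
      refine Prod.ext ?_ hω
      by_contra hne'
      obtain ⟨n, hn1, hn2⟩ := hsep _ _ hne'
      have hx := (x.1.2.1 n (1 : Γ))
      have hy := (y.1.2.1 n (1 : Γ))
      rw [one_smul] at hx hy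
      cases hval : x.1.1.2 (n, 1) with
      | true => exact absurd (hx.1 hval) (not_le.2 hn1)
      | false =>
        rw [hω] at hval
        exact absurd (hy.2 hval) (not_le.2 hn2)
    obtain ⟨p, hp⟩ := Function.ne_iff.1 h4
    obtain ⟨n, rfl⟩ := hen p
    refine ⟨n, ?_⟩
    intro hiff
    apply hp
    have h5 : (x.1.1.2 (en n) = true) ↔ (y.1.1.2 (en n) = true) := hiff
    exact Bool.eq_iff_iff.2 h5
  · intro x U hU hxU
    obtain ⟨U', hU', rfl⟩ := isOpen_induced_iff.1 hU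
    obtain ⟨y, hy1, hy2, hy3⟩ := h3 x.1 x.2 U' hU' hxU
    exact ⟨⟨y, hy3⟩, hy1, fun h => hy2 (congrArg Subtype.val h)⟩

end ext

lemma finiteIsotropy_of_smul {K Γ : Type} [TopologicalSpace K] [Group Γ] [MulAction Γ K]
    [ContinuousConstSMul Γ K] {g : Γ} {x : K} (h : FiniteIsotropy Γ (g • x)) :
    FiniteIsotropy Γ x := by
  obtain ⟨Φ, hΦ, h1⟩ := h
  refine ⟨(fun k => g⁻¹ * k * g) '' Φ, hΦ.image _, ?_⟩
  intro k hk
  obtain ⟨φ, hφ, hg⟩ := h1 (g * k * g⁻¹) (by
    rw [mul_smul, mul_smul, inv_smul_smul, hk])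
  refine ⟨g⁻¹ * φ * g, ⟨φ, hφ, rfl⟩, ?_⟩
  have h2 : Tendsto (fun y : K => g • y) (𝓝 x) (𝓝 (g • x)) := (continuous_const_smul g).tendsto x
  have h3 : ∀ᶠ y in 𝓝 x, (g * k * g⁻¹) • (g • y) = φ • (g • y) := h2.eventually hg
  filter_upwards [h3] with y hy
  rw [mul_smul, mul_smul, inv_smul_smul] at hy
  rw [mul_smul, mul_smul, ← hy, inv_smul_smul]

/-! ### The isomorphism -/

section main

variable {K Γ : Type} [MetricSpace K] [CompactSpace K] [Group Γ] [Countable Γ]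
  [MulAction Γ K] [ContinuousConstSMul Γ K] [MeasurableSpace K] [BorelSpace K]

lemma smul_eq_of_sameGerm (f : ℕ → C(K, ℝ)) (s : Sk Γ f) (g h : Γ)
    (hg : SameGerm g h (proj f s)) : g • s = h • s := by
  apply Subtype.ext
  apply Subtype.ext
  refine Prod.ext ?_ ?_
  · exact hg.self_of_nhds
  · funext p
    change s.1.1.2 (p.1, p.2 * g) = s.1.1.2 (p.1, p.2 * h)
    apply s.1.2.2
    have h1 : ∀ᶠ y in 𝓝 (proj f s), g • y = h • y := hg
    change ∀ᶠ y in 𝓝 (proj f s), (p.2 * g) • y = (p.2 * h) • y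
    filter_upwards [h1] with y hy
    rw [mul_smul, mul_smul, hy]

theorem cuts_iso [Uncountable K] (hinf : ∀ x : K, (orbit Γ x).Infinite) (f : ℕ → C(K, ℝ))
    (hsep : ∀ x y, x ≠ y → ∃ n, f n x < 0 ∧ 0 < f n y)
    (hsm : ∀ n, ∃ T : Set K, MeasurableSet T ∧ ∀ x, f n x = 0 → ∃! t, t ∈ T ∧ t ∈ orbit Γ x)
    (hiso : ∀ n x, f n x = 0 → FiniteIsotropy Γ x) :
    ∃ (_ : MulAction Γ (ℕ → Bool)) (_ : ContinuousConstSMul Γ (ℕ → Bool))
      (e : K → (ℕ → Bool)), Measurable[_, borel (ℕ → Bool)] e ∧ Function.Bijective e ∧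
        ∀ x y : K, y ∈ orbit Γ x ↔ e y ∈ orbit Γ (e x) := by
  classical
  let _ : MeasurableSpace (Sk Γ f) := borel _
  have _ : BorelSpace (Sk Γ f) := ⟨rfl⟩
  let π : Sk Γ f → K := proj f
  have hπ : Measurable π := (continuous_proj f).measurable
  have hπg : ∀ (g : Γ) (s : Sk Γ f), π (g • s) = g • π s := fun g s => rfl
  have hmK : ∀ g : Γ, Measurable (fun x : K => g • x) := fun g =>
    (continuous_const_smul g).measurable
  have hmS : ∀ g : Γ, Measurable (fun x : Sk Γ f => g • x) := fun g =>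
    (continuous_const_smul g).measurable
  have hinfS : ∀ s : Sk Γ f, (orbit Γ s).Infinite := by
    intro s hs
    apply hinf (π s)
    apply (hs.image π).subset
    rintro _ ⟨g, rfl⟩
    exact ⟨g • s, ⟨g, rfl⟩, rfl⟩
  -- the complement of the perfect kernel
  obtain ⟨hk1, hk2, hk3⟩ := perfect_kernel (Sp Γ f)
  let Q : Set K := (fun s : Sp Γ f => s.1.1) '' (PK Γ f)ᶜ
  have hQ : Q.Countable := Set.Countable.image hk2 _
  have hlift : ∀ x, x ∉ Q → ∀ ω, (hω : (x, ω) ∈ SSet Γ f) →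
      (⟨(x, ω), hω⟩ : Sp Γ f) ∈ PK Γ f := by
    intro x hx ω hω
    by_contra hcon
    exact hx ⟨⟨(x, ω), hω⟩, hcon, rfl⟩
  have hQg : ∀ (g : Γ), ∀ x ∈ Q, g • x ∈ Q := by
    rintro g _ ⟨s, hs, rfl⟩
    refine ⟨g • s, ?_, rfl⟩
    intro h
    apply hs
    have h1 := smul_mem_PK f g⁻¹ _ h
    rwa [inv_smul_smul] at h1
  have hsurj : ∀ x, x ∉ Q → ∃ s : Sk Γ f, π s = x := by
    intro x hx
    obtain ⟨ω, hω⟩ := sset_nonempty (Γ := Γ) f x
    exact ⟨⟨⟨(x, ω), hω⟩, hlift x hx ω hω⟩, rfl⟩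
  obtain ⟨TQ, hTQ1, hTQ2, hTQ3⟩ := countable_transversal (Γ := Γ) Q hQ hQg
  -- saturations
  let sat : Set K → Set K := fun D => {x | ∃ g : Γ, g • x ∈ D}
  have hsatg : ∀ D : Set K, ∀ (g : Γ), ∀ x ∈ sat D, g • x ∈ sat D := by
    rintro D g x ⟨h, hh⟩
    exact ⟨h * g⁻¹, by rwa [mul_smul, inv_smul_smul]⟩
  have hsatm : ∀ D : Set K, MeasurableSet D → MeasurableSet (sat D) := by
    intro D hD
    have h1 : sat D = ⋃ g : Γ, (fun x => g • x) ⁻¹' D := by
      ext x
      simp [sat]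
    rw [h1]
    exact MeasurableSet.iUnion fun g => hmK g hD
  have hsat1 : ∀ D T : Set K, (∀ x ∈ D, ∃! t, t ∈ T ∧ t ∈ orbit Γ x) →
      ∀ x ∈ sat D, ∃! t, t ∈ T ∧ t ∈ orbit Γ x := by
    rintro D T h x ⟨g, hg⟩
    have h1 := h _ hg
    have h2 : orbit Γ (g • x) = orbit Γ x := orbit_eq_iff.2 (mem_orbit x g)
    rwa [h2] at h1
  have hsubsat : ∀ D : Set K, D ⊆ sat D := fun D x hx => ⟨1, by rwa [one_smul]⟩
  -- a perfect set of inequivalent points
  obtain ⟨P, hP1, hP2, hP3⟩ := exists_perfect_transversal Γ K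
  have hPt : ∀ x ∈ P, ∃! t, t ∈ P ∧ t ∈ orbit Γ x := by
    intro x hx
    refine ⟨x, ⟨hx, mem_orbit_self x⟩, ?_⟩
    rintro t ⟨ht, hto⟩
    exact (hP3 x hx t ht hto).symm
  -- the zero sets
  let D : ℕ → Set K := fun n => {x | f n x = 0}
  have hD : ∀ n, MeasurableSet (D n) := fun n =>
    (isClosed_eq (f n).continuous continuous_const).measurableSet
  have hDt : ∀ n, ∃ T ⊆ sat (D n), MeasurableSet T ∧
      ∀ x ∈ D n, ∃! t, t ∈ T ∧ t ∈ orbit Γ x := by
    intro n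
    obtain ⟨T, hT, hT1⟩ := hsm n
    refine ⟨T ∩ sat (D n), inter_subset_right, hT.inter (hsatm _ (hD n)), ?_⟩
    intro x hx
    obtain ⟨t, ⟨ht1, ht2⟩, ht3⟩ := hT1 x hx
    refine ⟨t, ⟨⟨ht1, orbit_mem_of_mem (hsatg (D n)) (hsubsat _ hx) ht2⟩, ht2⟩, ?_⟩
    rintro t' ⟨⟨ht', _⟩, hto⟩
    exact ht3 t' ⟨ht', hto⟩
  choose TD hTD1 hTD2 hTD3 using hDt
  let V : ℕ → Set K := fun n => match n with
    | 0 => Q
    | 1 => sat P
    | (n + 2) => sat (D n)
  let T : ℕ → Set K := fun n => match n with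
    | 0 => TQ
    | 1 => P
    | (n + 2) => TD n
  have hVm : ∀ n, MeasurableSet (V n) := by
    intro n
    match n with
    | 0 => exact hQ.measurableSet
    | 1 => exact hsatm P hP1.measurableSet
    | (n + 2) => exact hsatm _ (hD n)
  have hVg : ∀ n (g : Γ), ∀ x ∈ V n, g • x ∈ V n := by
    intro n
    match n with
    | 0 => exact hQg
    | 1 => exact hsatg P
    | (n + 2) => exact hsatg _
  have hTm : ∀ n, MeasurableSet (T n) := by
    intro n
    match n with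
    | 0 => exact hTQ2
    | 1 => exact hP1.measurableSet
    | (n + 2) => exact hTD2 n
  have hTV : ∀ n, T n ⊆ V n := by
    intro n
    match n with
    | 0 => exact hTQ1
    | 1 => exact hsubsat P
    | (n + 2) => exact hTD1 n
  have hT1 : ∀ n, ∀ x ∈ V n, ∃! t, t ∈ T n ∧ t ∈ orbit Γ x := by
    intro n
    match n with
    | 0 => exact hTQ3
    | 1 => exact hsat1 P P hPt
    | (n + 2) => exact hsat1 (D n) (TD n) (hTD3 n)
  obtain ⟨T₁, hT₁V, hT₁, hT₁1⟩ := union_transversal V T hVm hVg hTm hTV hT1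
  have hVU : MeasurableSet (⋃ n, V n) := MeasurableSet.iUnion hVm
  have hVUg : ∀ (g : Γ), ∀ x ∈ ⋃ n, V n, g • x ∈ ⋃ n, V n := by
    intro g x hx
    obtain ⟨n, hn⟩ := mem_iUnion.1 hx
    exact mem_iUnion.2 ⟨n, hVg n g x hn⟩
  have hnz : ∀ x : K, (¬ ∃ n, ∃ g : Γ, f n (g • x) = 0) ∨ FiniteIsotropy Γ x := by
    intro x
    by_cases h : ∃ n, ∃ g : Γ, f n (g • x) = 0
    · obtain ⟨n, g, hg⟩ := h
      exact Or.inr (finiteIsotropy_of_smul (hiso n _ hg))
    · exact Or.inl h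
  have huniq : ∀ s s' : Sk Γ f, π s = π s' → (¬ ∃ n, ∃ g : Γ, f n (g • π s) = 0) → s = s' := by
    intro s s' h hn
    apply Subtype.ext
    apply Subtype.ext
    have e1 : s.1.1.1 = s'.1.1.1 := h
    refine Prod.ext e1 ?_
    push Not at hn
    apply sset_unique f s.1.1.1 hn
    · exact s.1.2
    · rw [e1]; exact s'.1.2
  -- the same upstairs
  let DS : Set (Sk Γ f) := π ⁻¹' T₁
  have hDSfin : ∀ s ∈ DS, (orbit Γ s ∩ DS).Finite := by
    intro s hs
    have hfixpt : ∀ g : Γ, g • s ∈ DS → g • π s = π s := by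
      intro g hg
      obtain ⟨t, _, ht⟩ := hT₁1 (π s) (hT₁V hs)
      have h1 := ht (π s) ⟨hs, mem_orbit_self _⟩
      have h2 := ht (π (g • s)) ⟨hg, ⟨g, rfl⟩⟩
      exact h2.trans h1.symm
    rcases hnz (π s) with h | h
    · apply (Set.finite_singleton s).subset
      rintro _ ⟨⟨g, rfl⟩, hg⟩
      rw [mem_singleton_iff]
      exact (huniq s (g • s) (hfixpt g hg).symm h).symm
    · obtain ⟨Φ, hΦ, hΦ2⟩ := h
      apply (hΦ.image (fun g : Γ => g • s)).subset
      rintro _ ⟨⟨g, rfl⟩, hg⟩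
      obtain ⟨φ, hφ, hgerm⟩ := hΦ2 g (hfixpt g hg)
      exact ⟨φ, hφ, (smul_eq_of_sameGerm f s g φ hgerm).symm⟩
  obtain ⟨T₂, hT₂D, hT₂, hT₂1'⟩ := exists_transversal Γ (Sk Γ f) hmS DS (hπ hT₁) hDSfin
  have hT₂V : T₂ ⊆ π ⁻¹' (⋃ n, V n) := fun s hs => hT₁V (hT₂D hs)
  have hT₂1 : ∀ s ∈ π ⁻¹' (⋃ n, V n), ∃! t, t ∈ T₂ ∧ t ∈ orbit Γ s := by
    intro s hs
    obtain ⟨t, ⟨ht1, g, hg⟩, _⟩ := hT₁1 (π s) hs
    have h0 : g • s ∈ DS := by
      change π (g • s) ∈ T₁
      rw [hπg]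
      have h3 : g • π s = t := hg
      rw [h3]
      exact ht1
    have h1 := hT₂1' _ h0
    have h2 : orbit Γ (g • s) = orbit Γ s := orbit_eq_iff.2 (mem_orbit s g)
    rwa [h2] at h1
  have hVunc : ¬ (⋃ n, V n).Countable := by
    intro h
    exact hP2 (h.mono fun x hx => mem_iUnion.2 ⟨1, hsubsat P hx⟩)
  have hT₁unc : ¬ T₁.Countable := fun h => hVunc
    (countable_of_transversal (Γ := Γ) h (fun x hx => (hT₁1 x hx).exists))
  have hT₂unc : ¬ T₂.Countable := by
    intro h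
    have h1 : (π ⁻¹' (⋃ n, V n)).Countable := countable_of_transversal (Γ := Γ) h
      (fun x hx => (hT₂1 x hx).exists)
    apply hVunc
    apply ((h1.image π).union hQ).mono
    intro x hx
    by_cases hxQ : x ∈ Q
    · exact Or.inr hxQ
    · obtain ⟨s, rfl⟩ := hsurj x hxQ
      exact Or.inl ⟨s, hx, rfl⟩
  have hTi₁ : T₁.Infinite := fun h => hT₁unc h.countable
  have hTi₂ : T₂.Infinite := fun h => hT₂unc h.countable
  have hcount : T₁.Countable ↔ T₂.Countable :=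
    ⟨fun h => absurd h hT₁unc, fun h => absurd h hT₂unc⟩
  have hbij : ∀ x, x ∉ ⋃ n, V n → ∃! s : Sk Γ f, π s = x := by
    intro x hx
    have hxQ : x ∉ Q := fun h => hx (mem_iUnion.2 ⟨0, h⟩)
    obtain ⟨s, hs⟩ := hsurj x hxQ
    refine ⟨s, hs, ?_⟩
    intro s' hs'
    refine (huniq s s' (hs.trans hs'.symm) ?_).symm
    rintro ⟨n, g, hg⟩
    rw [hs] at hg
    exact hx (mem_iUnion.2 ⟨n + 2, g, hg⟩)
  obtain ⟨e, he⟩ := glue Γ K (Sk Γ f) hmK hmS hinf hinfS π hπ hπg (⋃ n, V n)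
    hVU hVUg hbij T₁ hT₁ hT₁V hT₁1 hTi₁ T₂ hT₂ hT₂V hT₂1 hTi₂ hcount
  obtain ⟨φ⟩ := sk_homeo (Γ := Γ) f hsep
  let act : MulAction Γ (ℕ → Bool) :=
    { smul := fun g z => φ (g • φ.symm z)
      one_smul := fun z => by
        change φ ((1 : Γ) • φ.symm z) = z
        rw [one_smul, φ.apply_symm_apply]
      mul_smul := fun g h z => by
        change φ ((g * h) • φ.symm z) = φ (g • φ.symm (φ (h • φ.symm z)))
        rw [φ.symm_apply_apply, mul_smul] }
  have hact : ∀ (g : Γ) (z : ℕ → Bool), g • z = φ (g • φ.symm z) := fun _ _ => rfl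
  refine ⟨act, ⟨fun g => ?_⟩, fun x => φ (e x), ?_, ?_, ?_⟩
  · exact φ.continuous.comp ((continuous_const_smul g).comp φ.symm.continuous)
  · let _ : MeasurableSpace (ℕ → Bool) := borel _
    have _ : BorelSpace (ℕ → Bool) := ⟨rfl⟩
    exact φ.continuous.measurable.comp e.measurable
  · exact φ.bijective.comp e.bijective
  · intro x y
    rw [he x y]
    constructor
    · rintro ⟨g, hg⟩
      refine ⟨g, ?_⟩
      change g • φ (e x) = φ (e y)
      rw [hact, φ.symm_apply_apply, ← hg]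
    · rintro ⟨g, hg⟩
      refine ⟨g, ?_⟩
      change g • φ (e x) = φ (e y) at hg
      rw [hact, φ.symm_apply_apply] at hg
      exact φ.injective hg

end main

/-! ### Cut functions from finite-dimensional factors -/

section factors

/-- Cut functions for spaces with countably many tame factors. -/
theorem exists_cuts (K Γ : Type) [MetricSpace K] [CompactSpace K] [Group Γ] [Countable Γ]
    [MulAction Γ K] [ContinuousConstSMul Γ K] (L : ℕ → Type) [∀ m, MetricSpace (L m)]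
    [∀ m, CompactSpace (L m)] [∀ m, MulAction Γ (L m)] [∀ m, ContinuousConstSMul Γ (L m)]
    (p : ∀ m, C(K, L m)) (hp : ∀ m (g : Γ) (x : K), p m (g • x) = g • p m x)
    (hsep : ∀ x y, x ≠ y → ∃ m, p m x ≠ p m y)
    (A : ∀ m, ℕ → Set (L m)) (d : ∀ _ : ℕ, ℕ → ℕ) (hA : ∀ m j, IsClosed (A m j))
    (hd : ∀ m j, CovDimLE (A m j) (d m j)) (hcov : ∀ m y, ∃ j, y ∈ A m j)
    (hiso : ∀ m (x : K), (∃ j, p m x ∈ A m j ∧ d m j = 0) ∨
      (FiniteIsotropy Γ x ∧ {z : K | ∃ g : Γ, g • p m x = p m x ∧ z = g • x}.Finite)) :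
    ∃ f : ℕ → C(K, ℝ), (∀ x y, x ≠ y → ∃ n, f n x < 0 ∧ 0 < f n y) ∧
      (∀ n x, {z : K | z ∈ orbit Γ x ∧ f n z = 0}.Finite) ∧
      ∀ n x, f n x = 0 → FiniteIsotropy Γ x := by
  classical
  choose F hF1 hF2 using fun m => exists_generic (L m) Γ (A m) (d m) (hA m) (hd m)
  have hfin : ∀ m (y : L m), {q : ℕ × L m | q.2 ∈ orbit Γ y ∧ F m q.1 q.2 = 0}.Finite := by
    intro m y
    obtain ⟨j, hj⟩ := hcov m y
    by_contra hcon
    obtain ⟨s, hs1, hs2⟩ := (Set.Infinite.exists_subset_card_eq hcon (d m j + 1))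
    have h1 := hF2 m j y hj s (fun q hq => hs1 hq)
    omega
  have hzero : ∀ m (y : L m), (∃ j, y ∈ A m j ∧ d m j = 0) → ∀ n (g : Γ),
      F m n (g • y) ≠ 0 := by
    rintro m y ⟨j, hj, hj0⟩ n g h0
    have h1 := hF2 m j y hj {(n, g • y)} (by
      intro q hq
      rw [Finset.mem_singleton] at hq
      rw [hq]
      exact ⟨mem_orbit y g, h0⟩)
    rw [Finset.card_singleton, hj0] at h1
    omega
  let f : ℕ → C(K, ℝ) := fun n => (F n.unpair.1 n.unpair.2).comp (p n.unpair.1)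
  have hf : ∀ n x, f n x = F n.unpair.1 n.unpair.2 (p n.unpair.1 x) := fun _ _ => rfl
  refine ⟨f, ?_, ?_, ?_⟩
  · intro x y hxy
    obtain ⟨m, hm⟩ := hsep x y hxy
    obtain ⟨n, hn⟩ := hF1 m _ _ hm
    refine ⟨Nat.pair m n, ?_⟩
    rw [hf, hf, Nat.unpair_pair]
    exact hn
  · intro n x
    generalize hm : n.unpair.1 = m
    generalize hk : n.unpair.2 = k
    have hf' : ∀ z, f n z = F m k (p m z) := by
      intro z
      rw [hf]
      subst hm hk
      rfl
    rcases hiso m x with h | ⟨_, h⟩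
    · have hempty : {z : K | z ∈ orbit Γ x ∧ f n z = 0} = ∅ := by
        rw [eq_empty_iff_forall_notMem]
        rintro _ ⟨⟨g, rfl⟩, hz⟩
        rw [hf'] at hz
        change F m k (p m (g • x)) = 0 at hz
        rw [hp] at hz
        exact hzero m _ h k g hz
      rw [hempty]
      exact finite_empty
    · have h1 : {y : L m | y ∈ orbit Γ (p m x) ∧ F m k y = 0}.Finite := by
        apply ((hfin m (p m x)).image Prod.snd).subset
        rintro y ⟨hy1, hy2⟩
        exact ⟨(k, y), ⟨hy1, hy2⟩, rfl⟩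
      have h2 : {z : K | z ∈ orbit Γ x ∧ f n z = 0} ⊆
          ⋃ y ∈ {y : L m | y ∈ orbit Γ (p m x) ∧ F m k y = 0},
            {z : K | z ∈ orbit Γ x ∧ p m z = y} := by
        rintro z ⟨hz1, hz2⟩
        rw [mem_iUnion₂]
        rw [hf'] at hz2
        obtain ⟨g, rfl⟩ := hz1
        refine ⟨p m (g • x), ⟨⟨g, (hp m g x).symm⟩, hz2⟩, ⟨g, rfl⟩, rfl⟩
      refine (h1.biUnion ?_).subset h2
      rintro y ⟨⟨g₀, hg₀⟩, _⟩
      apply (h.image (fun z => g₀ • z)).subset
      rintro _ ⟨⟨g, rfl⟩, hgy⟩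
      refine ⟨(g₀⁻¹ * g) • x, ⟨g₀⁻¹ * g, ?_, rfl⟩, ?_⟩
      · change p m (g • x) = y at hgy
        rw [hp] at hgy
        have h3 : g₀ • p m x = y := hg₀
        rw [mul_smul, hgy, ← h3, inv_smul_smul]
      · change g₀ • (g₀⁻¹ * g) • x = g • x
        rw [mul_smul, smul_inv_smul]
  · intro n x hx
    rw [hf] at hx
    rcases hiso n.unpair.1 x with h | ⟨h, _⟩
    · exfalso
      have h1 := hzero _ _ h n.unpair.2 1
      rw [one_smul] at h1
      exact h1 hx
    · exact h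

end factors

end Pool.Agent.Helper43.CRF
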