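import Pool.Agent.Helper43.CR.Defs
import Pool.Agent.Helper39.CR.GeneralPosition

/-!
CR-3: a map from a space of covering dimension at most `d` to `ℝ^(d+1)` can be moved off the
origin.
-/

set_option autoImplicit false

open Set Topology Filter TopologicalSpace

namespace Pool.Agent.Helper43.CRF

open Pool.Agent.Helper43.CR Pool.Agent.Helper39.CR

/-- A map from a `d`-dimensional compact space to `ℝ^(d+1)` can be moved off the origin. -/
theorem exists_nonvanishing (X : Type) [TopologicalSpace X] [CompactSpace X] [T2Space X] (d : ℕ)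
    (hd : CovDimLE X d) (F : X → Fin (d + 1) → ℝ) (hF : Continuous F) (ε : ℝ) (hε : 0 < ε) :
    ∃ G : X → Fin (d + 1) → ℝ, Continuous G ∧ (∀ x i, |G x i - F x i| ≤ ε) ∧
      ∀ x, G x ≠ 0 := by
  classical
  -- a finite cover on whose members `F` varies little
  let U : X → Set X := fun x => F ⁻¹' Metric.ball (F x) (ε / 2)
  have hUo : ∀ x, IsOpen (U x) := fun x => Metric.isOpen_ball.preimage hF
  have hUx : ∀ x, U x ∈ 𝓝 x := fun x => (hUo x).mem_nhds (by simp [U, hε])
  obtain ⟨t, ht⟩ := CompactSpace.elim_nhds_subcover U hUx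
  let c : Fin t.card → X := fun i => (t.equivFin.symm i : X)
  have hcov : (⋃ i, U (c i)) = univ := by
    rw [eq_univ_iff_forall]
    intro x
    have hx : x ∈ ⋃ x ∈ t, U x := by rw [ht]; trivial
    simp only [mem_iUnion] at hx
    obtain ⟨y, hy, hxy⟩ := hx
    refine mem_iUnion.2 ⟨t.equivFin ⟨y, hy⟩, ?_⟩
    simpa [c] using hxy
  obtain ⟨k, V, hVo, hVc, hVU, hVd⟩ := hd t.card (fun i => U (c i)) (fun i => hUo _) hcov
  choose ι hι using hVU
  obtain ⟨v, hv, hgen⟩ := general_position d k (fun j => F (c (ι j))) (ε / 2) (by positivity)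
  obtain ⟨p, hp⟩ := PartitionOfUnity.exists_isSubordinate_of_locallyFinite
    (isClosed_univ (X := X)) V hVo (locallyFinite_of_finite V) hVc.ge
  have hpsupp : ∀ j x, p j x ≠ 0 → x ∈ V j := by
    intro j x h
    exact hp j (subset_tsupport _ h)
  have hpsum : ∀ x, ∑ j, p j x = 1 := by
    intro x
    rw [← finsum_eq_sum_of_fintype]
    exact p.sum_eq_one (mem_univ x)
  have hnear : ∀ j x, p j x ≠ 0 → ∀ i, |v j i - F x i| ≤ ε := by
    intro j x h i
    have h1 := hv j i
    have h2 : x ∈ U (c (ι j)) := hι j (hpsupp j x h)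
    have h3 : dist (F x i) (F (c (ι j)) i) ≤ dist (F x) (F (c (ι j))) := dist_le_pi_dist _ _ _
    have h4 : dist (F x) (F (c (ι j))) < ε / 2 := h2
    rw [Real.dist_eq] at h3
    have h5 : v j i - F x i = (v j i - F (c (ι j)) i) - (F x i - F (c (ι j)) i) := by ring
    rw [h5]
    calc _ ≤ |v j i - F (c (ι j)) i| + |F x i - F (c (ι j)) i| := abs_sub _ _
      _ ≤ ε := by linarith
  refine ⟨fun x => ∑ j, p j x • v j, ?_, ?_, ?_⟩
  · exact continuous_finsetSum _ fun j _ => (p j).continuous.smul continuous_const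
  · intro x i
    have h1 : (∑ j, p j x • v j) i - F x i = ∑ j, p j x * (v j i - F x i) := by
      simp only [Finset.sum_apply, Pi.smul_apply, smul_eq_mul, mul_sub, Finset.sum_sub_distrib,
        ← Finset.sum_mul, hpsum x, one_mul]
    simp only
    rw [h1]
    calc |∑ j, p j x * (v j i - F x i)| ≤ ∑ j, |p j x * (v j i - F x i)| :=
          Finset.abs_sum_le_sum_abs _ _
      _ ≤ ∑ j, p j x * ε := by
          refine Finset.sum_le_sum fun j _ => ?_
          rw [abs_mul, abs_of_nonneg (p.nonneg j x)]
          by_cases h : p j x = 0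
          · simp [h]
          · exact mul_le_mul_of_nonneg_left (hnear j x h i) (p.nonneg j x)
      _ = ε := by rw [← Finset.sum_mul, hpsum x, one_mul]
  · intro x h0
    let T : Finset (Fin k) := Finset.univ.filter fun j => x ∈ V j
    have hT : T.card ≤ d + 1 := by
      have h := hVd x
      have h2 : {j | x ∈ V j} = (T : Set (Fin k)) := by ext j; simp [T]
      rwa [h2, Set.ncard_coe_finset] at h
    have hsum : ∑ j ∈ T, p j x • v j = 0 := by
      rw [← h0]
      refine Finset.sum_subset (Finset.subset_univ _) fun j _ hj => ?_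
      have : p j x = 0 := by
        by_contra hne
        exact hj (by simp [T, hpsupp j x hne])
      simp [this]
    have hz := hgen T hT (fun j => p j x) hsum
    have h1 := hpsum x
    rw [Finset.sum_eq_zero] at h1
    · exact zero_ne_one h1
    · intro j _
      by_contra hne
      exact hne (hz j (by simp [T, hpsupp j x hne]))

end Pool.Agent.Helper43.CRF
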