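import Pool.Agent.Helper43.CR.Defs

/-!
The zero-dimensional extension.
-/

set_option autoImplicit false
set_option linter.unusedSectionVars false

open Set Topology Filter TopologicalSpace

namespace Pool.Agent.Helper43.CRF

open Pool.Agent.Helper43.CR

section sset

variable {K Γ : Type} [TopologicalSpace K] [T2Space K] [Group Γ] [MulAction Γ K]
  [ContinuousConstSMul Γ K]

theorem sset_isClosed (f : ℕ → C(K, ℝ)) : IsClosed (SSet Γ f) := by
  have h0 : SSet Γ f = {p | ∀ n (g : Γ), ((p.2 (n, g) = false ∨ 0 ≤ f n (g • p.1)) ∧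
      (p.2 (n, g) = true ∨ f n (g • p.1) ≤ 0))} ∩
      {p | ∀ n (g h : Γ), p.1 ∈ {x : K | SameGerm g h x}ᶜ ∨ p.2 (n, g) = p.2 (n, h)} := by
    ext p
    constructor
    · rintro ⟨h1, h2⟩
      refine ⟨fun n g => ⟨?_, ?_⟩, fun n g h => ?_⟩
      · cases hv : p.2 (n, g) with
        | true => exact Or.inr ((h1 n g).1 hv)
        | false => exact Or.inl rfl
      · cases hv : p.2 (n, g) with
        | true => exact Or.inl rfl
        | false => exact Or.inr ((h1 n g).2 hv)
      · by_cases hs : SameGerm g h p.1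
        · exact Or.inr (h2 n g h hs)
        · exact Or.inl hs
    · rintro ⟨h1, h2⟩
      refine ⟨fun n g => ⟨fun hv => ?_, fun hv => ?_⟩, fun n g h hs => ?_⟩
      · rcases (h1 n g).1 with h | h
        · rw [hv] at h; exact absurd h (by decide)
        · exact h
      · rcases (h1 n g).2 with h | h
        · rw [hv] at h; exact absurd h (by decide)
        · exact h
      · rcases h2 n g h with h' | h'
        · exact absurd hs h'
        · exact h'
  have hev : ∀ q : ℕ × Γ, Continuous (fun p : K × (ℕ × Γ → Bool) => p.2 q) := fun q =>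
    (continuous_apply q).comp continuous_snd
  have hf : ∀ n (g : Γ), Continuous (fun p : K × (ℕ × Γ → Bool) => f n (g • p.1)) := fun n g =>
    (f n).continuous.comp ((continuous_const_smul g).comp continuous_fst)
  rw [h0]
  refine IsClosed.inter ?_ ?_
  · simp only [ofPred_forall]
    refine isClosed_iInter fun n => isClosed_iInter fun g => ?_
    refine IsClosed.inter (IsClosed.union ?_ ?_) (IsClosed.union ?_ ?_)
    · exact isClosed_eq (hev _) continuous_const
    · exact isClosed_le continuous_const (hf n g)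
    · exact isClosed_eq (hev _) continuous_const
    · exact isClosed_le (hf n g) continuous_const
  · simp only [ofPred_forall]
    refine isClosed_iInter fun n => isClosed_iInter fun g => isClosed_iInter fun h => ?_
    refine IsClosed.union ?_ ?_
    · have h1 : IsOpen {x : K | SameGerm g h x} := isOpen_setOfPred_eventually_nhds
      exact h1.isClosed_compl.preimage continuous_fst
    · exact isClosed_eq (hev _) (hev _)

theorem sset_nonempty (f : ℕ → C(K, ℝ)) (x : K) : ∃ ω, (x, ω) ∈ SSet Γ f := by
  classical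
  refine ⟨fun q => decide (0 ≤ f q.1 (q.2 • x)), fun n g => ⟨fun hv => ?_, fun hv => ?_⟩,
    fun n g h hs => ?_⟩
  · exact of_decide_eq_true hv
  · exact (not_le.1 (of_decide_eq_false hv)).le
  · have h1 : g • x = h • x := hs.self_of_nhds
    change decide (0 ≤ f n (g • x)) = decide (0 ≤ f n (h • x))
    rw [h1]

theorem sset_unique (f : ℕ → C(K, ℝ)) (x : K) (h : ∀ n (g : Γ), f n (g • x) ≠ 0)
    (ω ω' : ℕ × Γ → Bool) (h1 : (x, ω) ∈ SSet Γ f) (h2 : (x, ω') ∈ SSet Γ f) : ω = ω' := by
  funext ⟨n, g⟩
  have e1 := h1.1 n g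
  have e2 := h2.1 n g
  cases hv : ω (n, g) with
  | true =>
    cases hv' : ω' (n, g) with
    | true => rfl
    | false => exact absurd (le_antisymm (e2.2 hv') (e1.1 hv)) (h n g)
  | false =>
    cases hv' : ω' (n, g) with
    | true => exact absurd (le_antisymm (e1.2 hv) (e2.1 hv')) (h n g)
    | false => rfl

theorem sset_smul (f : ℕ → C(K, ℝ)) (g : Γ) (x : K) (ω : ℕ × Γ → Bool)
    (h : (x, ω) ∈ SSet Γ f) : (g • x, fun p : ℕ × Γ => ω (p.1, p.2 * g)) ∈ SSet Γ f := by
  refine ⟨fun n k => ?_, fun n k l hs => ?_⟩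
  · have h1 := h.1 n (k * g)
    change (ω (n, k * g) = true → 0 ≤ f n (k • g • x)) ∧
      (ω (n, k * g) = false → f n (k • g • x) ≤ 0)
    rw [← mul_smul]
    exact h1
  · change ω (n, k * g) = ω (n, l * g)
    apply h.2
    have h1 : Tendsto (fun y : K => g • y) (𝓝 x) (𝓝 (g • x)) := (continuous_const_smul g).tendsto x
    have h2 : ∀ᶠ y in 𝓝 x, k • (g • y) = l • (g • y) := h1.eventually hs
    change ∀ᶠ y in 𝓝 x, (k * g) • y = (l * g) • y
    filter_upwards [h2] with y hy
    rw [mul_smul, mul_smul, hy]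

end sset

end Pool.Agent.Helper43.CRF
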