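import Pool.Agent.Helper43.CRF.Generic
import Pool.Agent.Helper43.CRF.Glue
import Pool.Agent.Helper43.CRF.SSet
import Pool.Agent.Helper12.CR.Brouwer
import Pool.Agent.Helper2.CR.C9
import Pool.Agent.Helper59.CR.Transversal
import Pool.Agent.Helper64.CR.CR14

/-!
The pieces, collected.
-/

set_option autoImplicit false

open Set Topology Filter TopologicalSpace

namespace Pool.Agent.Helper43.CRF

open Pool.Agent.Helper43.CR

/-- Brouwer: a nonempty compact Hausdorff space without isolated points whose points are separated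
by countably many clopen sets is homeomorphic to Cantor space. -/
theorem brouwer (S : Type) [TopologicalSpace S] [CompactSpace S] [T2Space S] [Nonempty S]
    (C : ℕ → Set S) (hC : ∀ n, IsClopen (C n))
    (hsep : ∀ x y, x ≠ y → ∃ n, ¬ (x ∈ C n ↔ y ∈ C n))
    (hperf : ∀ (x : S) (U : Set S), IsOpen U → x ∈ U → ∃ y ∈ U, y ≠ x) :
    Nonempty (S ≃ₜ (ℕ → Bool)) :=
  Pool.Agent.Helper12.CR.brouwer S C hC hsep hperf

/-- The perfect kernel. -/
theorem perfect_kernel (S : Type) [TopologicalSpace S] [SecondCountableTopology S] :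
    IsClosed {x : S | ∀ U : Set S, IsOpen U → x ∈ U → ¬ U.Countable} ∧
      {x : S | ∀ U : Set S, IsOpen U → x ∈ U → ¬ U.Countable}ᶜ.Countable ∧
      ∀ x : S, (∀ U : Set S, IsOpen U → x ∈ U → ¬ U.Countable) →
        ∀ U : Set S, IsOpen U → x ∈ U → ∃ y ∈ U, y ≠ x ∧
          ∀ U : Set S, IsOpen U → y ∈ U → ¬ U.Countable :=
  Pool.Agent.Helper2.CR.perfect_kernel S

/-- A Borel set meeting orbits in finite sets contains a Borel transversal of its saturation. -/
theorem exists_transversal (Γ Y : Type) [Group Γ] [Countable Γ] [MeasurableSpace Y]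
    [StandardBorelSpace Y] [MulAction Γ Y] (hm : ∀ g : Γ, Measurable (fun x : Y => g • x))
    (D : Set Y) (hD : MeasurableSet D)
    (hfin : ∀ x ∈ D, (MulAction.orbit Γ x ∩ D).Finite) :
    ∃ T ⊆ D, MeasurableSet T ∧ ∀ x ∈ D, ∃! t, t ∈ T ∧ t ∈ MulAction.orbit Γ x :=
  Pool.Agent.Helper59.CR.exists_transversal Γ Y hm D hD hfin

/-- An uncountable compact set of points in pairwise different orbits. -/
theorem exists_perfect_transversal (Γ K : Type) [Group Γ] [Countable Γ] [MetricSpace K]
    [CompactSpace K] [Uncountable K] [MulAction Γ K] [ContinuousConstSMul Γ K] :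
    ∃ P : Set K, IsCompact P ∧ ¬ P.Countable ∧
      ∀ x ∈ P, ∀ y ∈ P, y ∈ MulAction.orbit Γ x → x = y :=
  Pool.Agent.Helper64.CR.exists_perfect_transversal Γ K

end Pool.Agent.Helper43.CRF
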